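import Mathlib
import Pool.Agent.H47.BiebCoeff

set_option autoImplicit false

namespace Pool.Agent.Results.MP_36a5e2_an.CubicCoefficient

open Filter Topology Pool.Agent.H47

/-- The complex plane of dimension two with its Euclidean norm. -/
abbrev C2 := EuclideanSpace ℂ (Fin 2)

/-- The open Euclidean unit ball. -/
def B2 : Set C2 := {z | ‖z 0‖ ^ 2 + ‖z 1‖ ^ 2 < 1}

/-- `F` is a normalized Loewner chain: for `t ≥ 0` the map `F t` is holomorphic and injective on the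
ball, `F t 0 = 0`, the derivative of `F t` at `0` is `exp t` times the identity, and the images
of the ball increase with `t`. -/
def LoewnerChain (F : ℝ → C2 → C2) : Prop :=
  (∀ t : ℝ, 0 ≤ t → DifferentiableOn ℂ (F t) B2 ∧ Set.InjOn (F t) B2 ∧ F t 0 = 0 ∧
    HasFDerivAt (F t) (((Real.exp t : ℝ) : ℂ) • ContinuousLinearMap.id ℂ C2) 0) ∧
  ∀ s t : ℝ, 0 ≤ s → s ≤ t → F s '' B2 ⊆ F t '' B2

/-- The family of all `exp (-t) F t`, `t ≥ 0`, is normal on the ball: every sequence of members has a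
subsequence which converges locally uniformly on the ball. -/
def Normal (F : ℝ → C2 → C2) : Prop :=
  ∀ u : ℕ → ℝ, (∀ n, 0 ≤ u n) → ∃ (φ : ℕ → ℕ) (g : C2 → C2), StrictMono φ ∧
    TendstoLocallyUniformlyOn
      (fun (n : ℕ) (z : C2) => ((Real.exp (-u (φ n)) : ℝ) : ℂ) • F (u (φ n)) z) g atTop B2

/-- The class `S^0` of the ball (values outside the ball are irrelevant). -/
def S0 : Set (C2 → C2) :=
  {f | ∃ F : ℝ → C2 → C2, LoewnerChain F ∧ (∀ z ∈ B2, F 0 z = f z) ∧ Normal F}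

/-- `b` is the family of the Taylor coefficients of the first component of `f` on the ball. -/
def FirstCoefficients (f : C2 → C2) (b : ℕ → ℕ → ℂ) : Prop :=
  ∀ z ∈ B2, HasSum (fun p : ℕ × ℕ => b p.1 p.2 * z 0 ^ p.1 * z 1 ^ p.2) (f z 0)

theorem B2_eq : B2 = Metric.ball (0 : E2) 1 := by
  ext z
  rw [mem_ball_E2]
  rfl

theorem isOpen_B2 : IsOpen B2 := by
  rw [B2_eq]
  exact Metric.isOpen_ball

/-! ### The chain -/

theorem chain_hasFDerivAt (t : ℝ) : HasFDerivAt (chain t)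
    (((Real.exp t : ℝ) : ℂ) • ContinuousLinearMap.id ℂ E2) 0 := by
  have h0 : DifferentiableAt ℂ (chain t) 0 :=
    (chain_differentiableOn t).differentiableAt (Metric.isOpen_ball.mem_nhds (by simp))
  rw [← chain_fderiv t]
  exact h0.hasFDerivAt

theorem loewner_chain : LoewnerChain chain := by
  refine ⟨fun t _ => ⟨?_, ?_, chain_zero t, chain_hasFDerivAt t⟩, fun s t _ hst => ?_⟩
  · rw [B2_eq]; exact chain_differentiableOn t
  · rw [B2_eq]; exact chain_injOn t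
  · rw [B2_eq]; exact chain_image s t hst

/-- The normalised chain. -/
noncomputable def nch (t : ℝ) (z : E2) : E2 := ((Real.exp (-t) : ℝ) : ℂ) • chain t z

theorem nch_large (t : ℝ) (ht : 2 ≤ Real.exp t) (z : E2) : nch t z = gg z := by
  unfold nch chain
  rw [max_eq_right ht, min_eq_right (a := Real.exp t / 2) (by linarith), sh_one, smul_smul,
    ← Complex.ofReal_mul, ← Real.exp_add]
  simp

theorem nch_min (t : ℝ) (z : E2) : nch t z = nch (min t (Real.log 2)) z := by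
  rcases le_total t (Real.log 2) with h | h
  · rw [min_eq_left h]
  · rw [min_eq_right h, nch_large t, nch_large (Real.log 2)]
    · rw [Real.exp_log (by norm_num)]
    · rw [← Real.exp_log (show (0 : ℝ) < 2 by norm_num)]
      exact Real.exp_le_exp.2 h

/-- the parameter of the shear -/
noncomputable def mu (p : ℝ × E2) : ℂ := ((min (Real.exp p.1 / 2) 1 : ℝ) : ℂ)

theorem mu_cont : Continuous mu :=
  Complex.continuous_ofReal.comp
    ((((Real.continuous_exp.comp continuous_fst).div_const 2)).min continuous_const)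

theorem coord_cont (i : Fin 2) : Continuous (fun p : ℝ × E2 => p.2 i) :=
  ((EuclideanSpace.proj i : E2 →L[ℂ] ℂ).continuous).comp continuous_snd

theorem sh_cont : Continuous (fun p : ℝ × E2 => sh (min (Real.exp p.1 / 2) 1) p.2) := by
  have h0 : Continuous (fun p : ℝ × E2 => mu p * p.2 0) := mu_cont.mul (coord_cont 0)
  have h1 : Continuous (fun p : ℝ × E2 => mu p * p.2 1 + (5 / 2 : ℂ) * mu p * (1 - mu p) *
      (p.2 0) ^ 2) :=
    (mu_cont.mul (coord_cont 1)).add (((continuous_const.mul mu_cont).mul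
      (continuous_const.sub mu_cont)).mul ((coord_cont 0).pow 2))
  have h2 : Continuous (fun p : ℝ × E2 => (![mu p * p.2 0, mu p * p.2 1 + (5 / 2 : ℂ) * mu p *
      (1 - mu p) * (p.2 0) ^ 2] : Fin 2 → ℂ)) := by
    rw [continuous_pi_iff]
    intro i
    fin_cases i
    · exact h0
    · exact h1
  exact (PiLp.continuous_toLp 2 (fun _ : Fin 2 => ℂ)).comp h2

theorem nch_cont : ContinuousOn (Function.uncurry nch) (Set.univ ×ˢ (B2 : Set E2)) := by
  rintro ⟨t, z⟩ ⟨-, hz⟩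
  have hz' : z ∈ Metric.ball (0 : E2) 1 := by rw [← B2_eq]; exact hz
  have hm := sh_mem (min (Real.exp t / 2) 1) (min_pos' t).le (min_le_right _ _) hz'
  have hg : ContinuousAt gg (sh (min (Real.exp t / 2) 1) z) :=
    (gg_contDiffAt _ (one_sub_ne hm)).continuousAt
  have hgs : ContinuousAt (fun p : ℝ × E2 => gg (sh (min (Real.exp p.1 / 2) 1) p.2)) (t, z) :=
    ContinuousAt.comp (f := fun p : ℝ × E2 => sh (min (Real.exp p.1 / 2) 1) p.2)
      (x := ((t, z) : ℝ × E2)) hg sh_cont.continuousAt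
  have h3 : Continuous (fun p : ℝ × E2 => ((Real.exp (-p.1) : ℝ) : ℂ)) :=
    Complex.continuous_ofReal.comp (Real.continuous_exp.comp continuous_fst.neg)
  have h4 : Continuous (fun p : ℝ × E2 => ((max 2 (Real.exp p.1) : ℝ) : ℂ)) :=
    Complex.continuous_ofReal.comp (continuous_const.max (Real.continuous_exp.comp continuous_fst))
  have hc : ContinuousAt (Function.uncurry nch) (t, z) :=
    h3.continuousAt.smul (h4.continuousAt.smul hgs)
  exact hc.continuousWithinAt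

theorem normal_chain : Normal chain := by
  intro u hu
  have hlog : (0 : ℝ) ≤ Real.log 2 := Real.log_nonneg (by norm_num)
  obtain ⟨a, -, φ, hφ, hlim⟩ := isCompact_Icc.tendsto_subseq
    (x := fun n => min (u n) (Real.log 2)) (s := Set.Icc (0 : ℝ) (Real.log 2))
    (fun n => ⟨le_min (hu n) hlog, min_le_right _ _⟩)
  refine ⟨φ, nch a, hφ, ?_⟩
  rw [tendstoLocallyUniformlyOn_iff_forall_isCompact isOpen_B2]
  intro K hK hKc V hV
  obtain ⟨v, hv, hvk⟩ := IsCompact.mem_uniformity_of_prod (f := nch) (s := Set.univ) (q := a)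
    hKc (nch_cont.mono (Set.prod_mono subset_rfl hK)) (Set.mem_univ a) (symm_le_uniformity hV)
  rw [nhdsWithin_univ] at hv
  filter_upwards [hlim hv] with n hn z hz
  have h1 := hvk _ hn z hz
  have h2 : ((Real.exp (-u (φ n)) : ℝ) : ℂ) • chain (u (φ n)) z =
      nch (min (u (φ n)) (Real.log 2)) z := by
    rw [← nch_min]; rfl
  show (nch a z, ((Real.exp (-u (φ n)) : ℝ) : ℂ) • chain (u (φ n)) z) ∈ V
  rw [h2]
  exact h1

/-! ### The Taylor coefficients -/

/-- Taylor coefficients of the profile. -/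
noncomputable def kk (n : ℕ) : ℂ := (n.factorial : ℂ)⁻¹ * iteratedDeriv n KK 0

theorem kk_one : kk 1 = -(241 / 50) := by
  unfold kk
  rw [iteratedDeriv_one, KK_hasDerivAt.deriv]
  norm_num

theorem one_sub_ne' {v : ℂ} (hv : ‖v‖ < 1) : 1 - v ≠ 0 := by
  intro h
  have h1 : v = 1 := by linear_combination -h
  rw [h1] at hv
  simp at hv

theorem KK_sum (v : ℂ) (hv : ‖v‖ < 1) : HasSum (fun n => kk n * v ^ n) (KK v) := by
  have hd : DifferentiableOn ℂ KK (Metric.ball (0 : ℂ) 1) := by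
    intro w hw
    rw [mem_ball_zero_iff] at hw
    exact ((KK_contDiffAt w (one_sub_ne' hw)).differentiableAt (by simp)).differentiableWithinAt
  have h := Complex.hasSum_taylorSeries_on_ball hd (z := v) (by rwa [mem_ball_zero_iff])
  have e : (fun n => kk n * v ^ n) =
      fun n : ℕ => (n.factorial : ℂ)⁻¹ • (v - 0) ^ n • iteratedDeriv n KK 0 := by
    funext n
    rw [sub_zero, smul_eq_mul, smul_eq_mul, kk]
    ring
  rw [e]
  exact h

theorem kk_summable (r : ℝ) (hr0 : 0 ≤ r) (hr : r < 1) : Summable (fun n => ‖kk n‖ * r ^ n) := by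
  have h := (KK_sum (r : ℂ) (by rwa [Complex.norm_real, Real.norm_eq_abs,
    abs_of_nonneg hr0])).summable.norm
  have e : (fun n => ‖kk n‖ * r ^ n) = fun n => ‖kk n * (r : ℂ) ^ n‖ := by
    funext n
    rw [norm_mul, norm_pow, Complex.norm_real, Real.norm_eq_abs, abs_of_nonneg hr0]
  rw [e]
  exact h

theorem double_sum (X Y : ℂ) (h : ‖X‖ + ‖Y‖ < 1) :
    HasSum (fun p : ℕ × ℕ => kk (p.1 + p.2) * ((p.1 + p.2).choose p.1 : ℂ) * X ^ p.1 * Y ^ p.2)
      (KK (X + Y)) := by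
  have key : ∀ (c : ℕ → ℂ) (x y : ℂ) (n : ℕ), ∑ p ∈ Finset.HasAntidiagonal.antidiagonal n,
      c (p.1 + p.2) * ((p.1 + p.2).choose p.1 : ℂ) * x ^ p.1 * y ^ p.2 = c n * (x + y) ^ n := by
    intro c x y n
    rw [(Commute.all x y).add_pow', Finset.mul_sum]
    apply Finset.sum_congr rfl
    intro p hp
    rw [Finset.HasAntidiagonal.mem_antidiagonal.1 hp, nsmul_eq_mul]
    ring
  have keyR : ∀ (c : ℕ → ℝ) (x y : ℝ) (n : ℕ), ∑ p ∈ Finset.HasAntidiagonal.antidiagonal n,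
      c (p.1 + p.2) * ((p.1 + p.2).choose p.1 : ℝ) * x ^ p.1 * y ^ p.2 = c n * (x + y) ^ n := by
    intro c x y n
    rw [(Commute.all x y).add_pow', Finset.mul_sum]
    apply Finset.sum_congr rfl
    intro p hp
    rw [Finset.HasAntidiagonal.mem_antidiagonal.1 hp, nsmul_eq_mul]
    ring
  rw [← Finset.HasAntidiagonal.sigmaAntidiagonalEquivProd.hasSum_iff]
  refine HasSum.sigma_of_hasSum (g := fun n => kk n * (X + Y) ^ n)
    (KK_sum _ ((norm_add_le X Y).trans_lt h)) ?_ ?_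
  · intro n
    rw [← key kk X Y n]
    exact Finset.hasSum (Finset.HasAntidiagonal.antidiagonal n) (fun p : ℕ × ℕ =>
      kk (p.1 + p.2) * ((p.1 + p.2).choose p.1 : ℂ) * X ^ p.1 * Y ^ p.2)
  · rw [← summable_norm_iff, summable_sigma_of_nonneg (fun _ => norm_nonneg _)]
    have hfin : ∀ n : ℕ, HasSum (fun c : Finset.HasAntidiagonal.antidiagonal n =>
        ‖kk (c.1.1 + c.1.2) * ((c.1.1 + c.1.2).choose c.1.1 : ℂ) * X ^ c.1.1 * Y ^ c.1.2‖)
        (‖kk n‖ * (‖X‖ + ‖Y‖) ^ n) := by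
      intro n
      rw [← keyR (fun n => ‖kk n‖) ‖X‖ ‖Y‖ n]
      have h1 := Finset.hasSum (Finset.HasAntidiagonal.antidiagonal n) (fun p : ℕ × ℕ =>
        ‖kk (p.1 + p.2)‖ * ((p.1 + p.2).choose p.1 : ℝ) * ‖X‖ ^ p.1 * ‖Y‖ ^ p.2)
      have e : (fun c : Finset.HasAntidiagonal.antidiagonal n =>
          ‖kk (c.1.1 + c.1.2) * ((c.1.1 + c.1.2).choose c.1.1 : ℂ) * X ^ c.1.1 * Y ^ c.1.2‖) =
          (fun p : ℕ × ℕ => ‖kk (p.1 + p.2)‖ * ((p.1 + p.2).choose p.1 : ℝ) * ‖X‖ ^ p.1 *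
            ‖Y‖ ^ p.2) ∘ (fun c : Finset.HasAntidiagonal.antidiagonal n => (c : ℕ × ℕ)) := by
        funext c
        simp
      rw [e]
      exact h1
    refine ⟨fun n => (hfin n).summable, ?_⟩
    have h2 := kk_summable (‖X‖ + ‖Y‖) (by positivity) h
    refine h2.congr fun n => ?_
    exact (hfin n).tsum_eq.symm

/-- The Taylor coefficients of the first component of `chain 0`. -/
noncomputable def bb (p q : ℕ) : ℂ :=
  if p % 2 = 1 then kk (p / 2 + q) * ((p / 2 + q).choose (p / 2) : ℂ) * (5 / 8) ^ (p / 2) *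
    (1 / 2) ^ q else 0

theorem bb_three : bb 3 0 = -(241 / 80) := by
  unfold bb
  norm_num [kk_one]

theorem chain_first (z : E2) : chain 0 z 0 = z 0 * KK (5 / 8 * z 0 ^ 2 + z 1 / 2) := by
  rw [chain0_apply, PiLp.smul_apply, gg_zero_apply, sh_zero_apply, sh_one_apply, smul_eq_mul, KK]
  have hv : ((1 / 2 : ℝ) : ℂ) * z 1 + 5 / 2 * ((1 / 2 : ℝ) : ℂ) * (1 - ((1 / 2 : ℝ) : ℂ)) *
      z 0 ^ 2 = 5 / 8 * z 0 ^ 2 + z 1 / 2 := by push_cast; ring
  rw [hv]
  push_cast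
  ring

theorem chain_second (z : E2) : chain 0 z 1 = 2 * ((5 / 8 * z 0 ^ 2 + z 1 / 2) /
    (1 - (5 / 8 * z 0 ^ 2 + z 1 / 2))) := by
  rw [chain0_apply, PiLp.smul_apply, gg_one_apply, sh_one_apply, smul_eq_mul]
  have hv : ((1 / 2 : ℝ) : ℂ) * z 1 + 5 / 2 * ((1 / 2 : ℝ) : ℂ) * (1 - ((1 / 2 : ℝ) : ℂ)) *
      z 0 ^ 2 = 5 / 8 * z 0 ^ 2 + z 1 / 2 := by push_cast; ring
  rw [hv]

theorem small {z : C2} (hz : z ∈ B2) : ‖5 / 8 * z 0 ^ 2‖ + ‖z 1 / 2‖ < 1 := by
  have h : ‖z 0‖ ^ 2 + ‖z 1‖ ^ 2 < 1 := hz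
  have h1 : ‖5 / 8 * z 0 ^ 2‖ = 5 / 8 * ‖z 0‖ ^ 2 := by
    rw [norm_mul, norm_pow]; norm_num
  have h2 : ‖z 1 / 2‖ = ‖z 1‖ / 2 := by
    rw [norm_div]; norm_num
  rw [h1, h2]
  nlinarith [sq_nonneg (‖z 1‖ - 2 / 5)]

theorem coefficients : FirstCoefficients (chain 0) bb := by
  intro z hz
  have h := (double_sum (5 / 8 * z 0 ^ 2) (z 1 / 2) (small hz)).mul_left (z 0)
  rw [← chain_first] at h
  have hinj : Function.Injective (fun p : ℕ × ℕ => ((2 * p.1 + 1, p.2) : ℕ × ℕ)) := by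
    rintro ⟨a, b⟩ ⟨c, d⟩ h
    simp only [Prod.mk.injEq] at h
    ext <;> simp <;> omega
  rw [← hinj.hasSum_iff]
  · have e : ((fun p : ℕ × ℕ => bb p.1 p.2 * z 0 ^ p.1 * z 1 ^ p.2) ∘
        fun p : ℕ × ℕ => ((2 * p.1 + 1, p.2) : ℕ × ℕ)) =
        fun p : ℕ × ℕ => z 0 * (kk (p.1 + p.2) * ((p.1 + p.2).choose p.1 : ℂ) *
          (5 / 8 * z 0 ^ 2) ^ p.1 * (z 1 / 2) ^ p.2) := by
      funext p
      have e1 : (2 * p.1 + 1) % 2 = 1 := by omega
      have e2 : (2 * p.1 + 1) / 2 = p.1 := by omega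
      simp only [Function.comp_apply, bb, e1, e2, if_true]
      rw [mul_pow, div_pow (z 1), ← pow_mul, pow_succ, one_div, inv_pow]
      ring
    rw [e]
    exact h
  · rintro ⟨p, q⟩ hp
    have h1 : ¬ p % 2 = 1 := by
      intro h1
      apply hp
      refine ⟨(p / 2, q), ?_⟩
      simp only [Prod.mk.injEq, and_true]
      omega
    simp only [bb, h1, if_false, zero_mul]

theorem result : ∃ (f : C2 → C2) (b : ℕ → ℕ → ℂ), f ∈ S0 ∧ FirstCoefficients f b ∧
    b 3 0 = -(241 / 80) ∧ 3 < ‖b 3 0‖ ∧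
    ∀ z ∈ B2, ∀ v : ℂ, v = 5 / 8 * z 0 ^ 2 + z 1 / 2 → 1 - v ≠ 0 ∧
      f z 0 = z 0 / (1 - v) * Complex.exp (-(291 / 50) * (v / (1 - v))) ∧
      f z 1 = 2 * (v / (1 - v)) := by
  refine ⟨chain 0, bb, ⟨chain, loewner_chain, fun _ _ => rfl, normal_chain⟩, coefficients,
    bb_three, ?_, ?_⟩
  · rw [bb_three, norm_neg]
    norm_num
  · rintro z hz v rfl
    refine ⟨one_sub_ne' ((norm_add_le _ _).trans_lt (small hz)), ?_, chain_second z⟩
    rw [chain_first, KK]
    ring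

end Pool.Agent.Results.MP_36a5e2_an.CubicCoefficient
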